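import Mathlib
import Pool.Agent.MP_4cde56_an.Defs

section

set_option autoImplicit false

namespace Pool.Agent.MP_4cde56_an

open Finset

variable {H : Type} [AddCommGroup H] [Fintype H]

/-- The averaging operator attached to a weight. -/
def op (w g : H → ℝ) : H → ℝ := fun z => ∑ x, w x * g (z + x)

/-- Convolution of real functions. -/
def cv (w f : H → ℝ) : H → ℝ := fun x => ∑ y, w y * f (x - y)

lemma op_mono {w g g' : H → ℝ} (hw : ∀ x, 0 ≤ w x) (h : ∀ x, g x ≤ g' x) (z : H) :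
    op w g z ≤ op w g' z :=
  Finset.sum_le_sum (fun x _ => mul_le_mul_of_nonneg_left (h _) (hw x))

lemma op_affine {w : H → ℝ} (hw : ∑ x, w x = 1) (c d : ℝ) (g : H → ℝ) (z : H) :
    op w (fun x => c + d * g x) z = c + d * op w g z := by
  simp only [op, mul_add, Finset.sum_add_distrib, ← Finset.sum_mul, hw, one_mul, Finset.mul_sum]
  congr 1
  exact Finset.sum_congr rfl (fun x _ => by ring)

lemma op_lin (w : H → ℝ) (c d : ℝ) (g g' : H → ℝ) (z : H) :
    op w (fun x => c * g x + d * g' x) z = c * op w g z + d * op w g' z := by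
  simp only [op, mul_add, Finset.sum_add_distrib, Finset.mul_sum]
  congr 1 <;> exact Finset.sum_congr rfl (fun x _ => by ring)

lemma iter_mono {w g g' : H → ℝ} (hw : ∀ x, 0 ≤ w x) (h : ∀ x, g x ≤ g' x) (j : ℕ) (z : H) :
    (op w)^[j] g z ≤ (op w)^[j] g' z := by
  induction j generalizing z with
  | zero => exact h z
  | succ j ih =>
    rw [Function.iterate_succ_apply', Function.iterate_succ_apply']
    exact op_mono hw ih z

lemma iter_affine {w : H → ℝ} (hw : ∑ x, w x = 1) (c d : ℝ) (g : H → ℝ) (j : ℕ) :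
    (op w)^[j] (fun x => c + d * g x) = fun z => c + d * (op w)^[j] g z := by
  induction j with
  | zero => rfl
  | succ j ih =>
    rw [Function.iterate_succ_apply', Function.iterate_succ_apply', ih]
    funext z
    exact op_affine hw c d _ z

lemma op_comm (w w' g : H → ℝ) : op w (op w' g) = op w' (op w g) := by
  funext z
  simp only [op, Finset.mul_sum]
  rw [Finset.sum_comm]
  refine Finset.sum_congr rfl (fun x _ => Finset.sum_congr rfl (fun y _ => ?_))
  rw [add_right_comm]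
  ring

lemma pair_cv (w f g : H → ℝ) : ∑ x, cv w f x * g x = ∑ z, f z * op w g z := by
  simp only [cv, op, Finset.sum_mul, Finset.mul_sum]
  rw [Finset.sum_comm]
  conv_rhs => rw [Finset.sum_comm]
  refine Finset.sum_congr rfl (fun y _ => ?_)
  rw [← Equiv.sum_comp (Equiv.addRight y)]
  refine Finset.sum_congr rfl (fun z _ => ?_)
  simp only [Equiv.coe_addRight, add_sub_cancel_right]
  ring

/-- The data of a pair of channels, the second one less noisy than the first one. -/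
structure LessNoisy (a b ρ : H → ℝ) : Prop where
  a_nonneg : ∀ x, 0 ≤ a x
  a_sum : ∑ x, a x = 1
  b_nonneg : ∀ x, 0 ≤ b x
  b_sum : ∑ x, b x = 1
  fact : ∀ x, a x = ∑ y, b y * ρ (x - y)
  contr : ∀ g : H → ℝ, ∑ y, b y * (∑ x, ρ (x - y) * g x) ^ 2 ≤ ∑ x, a x * g x ^ 2

lemma LessNoisy.l1_aux {a b ρ : H → ℝ} (h : LessNoisy a b ρ) (f : H → ℝ) :
    ∑ x, |cv a f x| ≤ (∑ x, |cv b f x|) / 2 + (∑ x, |f x|) / 2 := by
  set g : H → ℝ := fun x => if 0 ≤ cv a f x then 1 else -1 with hg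
  have hg2 : ∀ x, g x ^ 2 = 1 := by
    intro x; simp only [hg]; split_ifs <;> norm_num
  have h1 : ∑ x, |cv a f x| = ∑ z, f z * op a g z := by
    rw [← pair_cv]
    refine Finset.sum_congr rfl (fun x _ => ?_)
    simp only [hg]
    split_ifs with hx
    · rw [abs_of_nonneg hx, mul_one]
    · rw [abs_of_neg (not_le.mp hx)]; ring
  set g' : H → ℝ := op ρ g with hg'
  have hg'' : ∀ z y, g' (z + y) = ∑ x, ρ (x - y) * g (z + x) := by
    intro z y
    simp only [hg', op]
    rw [← Equiv.sum_comp (Equiv.subRight y)]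
    refine Finset.sum_congr rfl (fun x _ => ?_)
    simp only [Equiv.subRight_apply]
    congr 2
    abel
  have h2 : ∀ z, op a g z = op b g' z := by
    intro z
    simp only [op, hg'', Finset.mul_sum]
    rw [Finset.sum_comm]
    refine Finset.sum_congr rfl (fun x _ => ?_)
    rw [h.fact x, Finset.sum_mul]
    exact Finset.sum_congr rfl (fun y _ => by ring)
  have h3 : ∀ z, op b (fun x => g' x ^ 2) z ≤ 1 := by
    intro z
    have := h.contr (fun x => g (z + x))
    simp only [hg2, mul_one, h.a_sum] at this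
    simpa only [op, hg''] using this
  set g₁ : H → ℝ := fun x => max (-(1 / 2)) (min (1 / 2) (g' x)) with hg₁
  have h4 : ∀ x, |g₁ x| ≤ 1 / 2 := by
    intro x
    rw [abs_le]
    exact ⟨le_max_left _ _, max_le (by norm_num) (min_le_left _ _)⟩
  have h5 : ∀ x, |g' x - g₁ x| ≤ g' x ^ 2 / 2 := by
    intro x
    simp only [hg₁]
    rw [abs_le]
    rcases le_total (g' x) (1 / 2) with h6 | h6
    · rw [min_eq_right h6]
      rcases le_total (-(1 / 2)) (g' x) with h7 | h7
      · rw [max_eq_right h7]; constructor <;> nlinarith [sq_nonneg (g' x)]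
      · rw [max_eq_left h7]; constructor <;> nlinarith [sq_nonneg (g' x + 1)]
    · rw [min_eq_left h6, max_eq_right (by norm_num)]
      constructor <;> nlinarith [sq_nonneg (g' x - 1)]
  have h6 : ∀ z, |op b g' z - op b g₁ z| ≤ 1 / 2 := by
    intro z
    have e : op b g' z - op b g₁ z = ∑ x, b x * (g' (z + x) - g₁ (z + x)) := by
      simp only [op, mul_sub, Finset.sum_sub_distrib]
    rw [e]
    refine (Finset.abs_sum_le_sum_abs _ _).trans ?_
    have e2 : ∑ x, |b x * (g' (z + x) - g₁ (z + x))| ≤ ∑ x, b x * g' (z + x) ^ 2 / 2 := by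
      refine Finset.sum_le_sum (fun x _ => ?_)
      rw [abs_mul, abs_of_nonneg (h.b_nonneg x), mul_div_assoc]
      exact mul_le_mul_of_nonneg_left (h5 _) (h.b_nonneg x)
    rw [← Finset.sum_div] at e2
    have := h3 z
    simp only [op] at this
    linarith
  have h7 : ∑ z, f z * op b g₁ z ≤ (∑ x, |cv b f x|) / 2 := by
    rw [← pair_cv, Finset.sum_div]
    refine Finset.sum_le_sum (fun x _ => (le_abs_self _).trans ?_)
    rw [abs_mul]
    have := mul_le_mul_of_nonneg_left (h4 x) (abs_nonneg (cv b f x))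
    linarith
  have h8 : ∑ z, f z * (op b g' z - op b g₁ z) ≤ (∑ x, |f x|) / 2 := by
    rw [Finset.sum_div]
    refine Finset.sum_le_sum (fun x _ => (le_abs_self _).trans ?_)
    rw [abs_mul]
    have := mul_le_mul_of_nonneg_left (h6 x) (abs_nonneg (f x))
    linarith
  rw [h1]
  simp only [h2]
  simp only [mul_sub, Finset.sum_sub_distrib] at h8
  linarith

lemma LessNoisy.l1 {a b ρ : H → ℝ} (h : LessNoisy a b ρ) (f : H → ℝ) :
    ∑ x, |f x| ≤ 2 * ∑ x, |f x - cv a f x| + ∑ x, |cv b f x| := by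
  have h1 := h.l1_aux f
  have h2 : ∑ x, |f x| ≤ ∑ x, |f x - cv a f x| + ∑ x, |cv a f x| := by
    rw [← Finset.sum_add_distrib]
    refine Finset.sum_le_sum (fun x _ => ?_)
    have := abs_add_le (f x - cv a f x) (cv a f x)
    simpa using this
  linarith

/-- Tensor products of weighted `L²` contractions are contractions. -/
lemma tensor_contr (n : ℕ) : ∀ (X : Fin n → Type) [∀ i, Fintype (X i)]
    (a b : ∀ i, X i → ℝ) (k : ∀ i, X i → X i → ℝ), (∀ i x, 0 ≤ a i x) → (∀ i x, 0 ≤ b i x) →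
    (∀ i (g : X i → ℝ), ∑ y, b i y * (∑ x, k i y x * g x) ^ 2 ≤ ∑ x, a i x * g x ^ 2) →
    ∀ g : (∀ i, X i) → ℝ, ∑ y : ∀ i, X i, (∏ i, b i (y i)) *
      (∑ x : ∀ i, X i, (∏ i, k i (y i) (x i)) * g x) ^ 2
        ≤ ∑ x : ∀ i, X i, (∏ i, a i (x i)) * g x ^ 2 := by
  induction n with
  | zero =>
    intro X _ a b k _ _ _ g
    simp
  | succ n ih =>
    intro X _ a b k ha hb h g
    have e : ∀ F : (∀ i, X i) → ℝ, ∑ x, F x
        = ∑ x₀ : X 0, ∑ x' : ∀ i : Fin n, X i.succ, F (Fin.cons x₀ x') := by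
      intro F
      rw [← Fintype.sum_prod_type', ← Equiv.sum_comp (Fin.consEquiv X)]
      rfl
    have ih' := ih (fun i => X i.succ) (fun i => a i.succ) (fun i => b i.succ)
      (fun i => k i.succ) (fun i => ha i.succ) (fun i => hb i.succ) (fun i => h i.succ)
    simp only [e, Fin.prod_univ_succ, Fin.cons_zero, Fin.cons_succ]
    calc ∑ y₀ : X 0, ∑ y' : ∀ i : Fin n, X i.succ, (b 0 y₀ * ∏ i, b i.succ (y' i)) *
          (∑ x₀ : X 0, ∑ x' : ∀ i : Fin n, X i.succ,
            (k 0 y₀ x₀ * ∏ i, k i.succ (y' i) (x' i)) * g (Fin.cons x₀ x')) ^ 2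
        = ∑ y' : ∀ i : Fin n, X i.succ, (∏ i, b i.succ (y' i)) * ∑ y₀ : X 0, b 0 y₀ *
          (∑ x₀ : X 0, k 0 y₀ x₀ * ∑ x' : ∀ i : Fin n, X i.succ,
            (∏ i, k i.succ (y' i) (x' i)) * g (Fin.cons x₀ x')) ^ 2 := by
          rw [Finset.sum_comm]
          refine Finset.sum_congr rfl (fun y' _ => ?_)
          rw [Finset.mul_sum]
          refine Finset.sum_congr rfl (fun y₀ _ => ?_)
          simp only [Finset.mul_sum, mul_assoc]
          ring
      _ ≤ ∑ y' : ∀ i : Fin n, X i.succ, (∏ i, b i.succ (y' i)) * ∑ x₀ : X 0, a 0 x₀ *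
          (∑ x' : ∀ i : Fin n, X i.succ,
            (∏ i, k i.succ (y' i) (x' i)) * g (Fin.cons x₀ x')) ^ 2 :=
          Finset.sum_le_sum (fun y' _ => mul_le_mul_of_nonneg_left (h 0 _)
            (Finset.prod_nonneg (fun i _ => hb _ _)))
      _ = ∑ x₀ : X 0, a 0 x₀ * ∑ y' : ∀ i : Fin n, X i.succ, (∏ i, b i.succ (y' i)) *
          (∑ x' : ∀ i : Fin n, X i.succ,
            (∏ i, k i.succ (y' i) (x' i)) * g (Fin.cons x₀ x')) ^ 2 := by
          simp only [Finset.mul_sum]
          rw [Finset.sum_comm]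
          refine Finset.sum_congr rfl (fun x₀ _ => Finset.sum_congr rfl (fun y' _ => by ring))
      _ ≤ ∑ x₀ : X 0, a 0 x₀ * ∑ x' : ∀ i : Fin n, X i.succ,
          (∏ i, a i.succ (x' i)) * g (Fin.cons x₀ x') ^ 2 :=
          Finset.sum_le_sum (fun x₀ _ => mul_le_mul_of_nonneg_left (ih' _) (ha 0 _))
      _ = _ := by
          refine Finset.sum_congr rfl (fun x₀ _ => ?_)
          rw [Finset.mul_sum]
          exact Finset.sum_congr rfl (fun x' _ => by ring)

section Pi

variable {n : ℕ} {X : Fin n → Type} [∀ i, AddCommGroup (X i)] [∀ i, Fintype (X i)]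

/-- Product weight. -/
def pw (a : ∀ i, X i → ℝ) : (∀ i, X i) → ℝ := fun x => ∏ i, a i (x i)

lemma op_pw (a F : ∀ i, X i → ℝ) : op (pw a) (pw F) = pw (fun i => op (a i) (F i)) := by
  funext z
  simp only [op, pw]
  rw [Fintype.prod_sum]
  refine Finset.sum_congr rfl (fun x _ => ?_)
  rw [← Finset.prod_mul_distrib]
  rfl

lemma iter_pw (a F : ∀ i, X i → ℝ) (j : ℕ) :
    (op (pw a))^[j] (pw F) = pw (fun i => (op (a i))^[j] (F i)) := by
  induction j with
  | zero => rfl
  | succ j ih =>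
    rw [Function.iterate_succ_apply', ih, op_pw]
    simp only [Function.iterate_succ_apply']

lemma LessNoisy.pi {a b ρ : ∀ i, X i → ℝ} (h : ∀ i, LessNoisy (a i) (b i) (ρ i)) :
    LessNoisy (pw a) (pw b) (pw ρ) where
  a_nonneg x := Finset.prod_nonneg (fun i _ => (h i).a_nonneg _)
  a_sum := by
    simp only [pw]
    rw [← Fintype.prod_sum (fun i x => a i x)]
    simp [(h _).a_sum]
  b_nonneg x := Finset.prod_nonneg (fun i _ => (h i).b_nonneg _)
  b_sum := by
    simp only [pw]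
    rw [← Fintype.prod_sum (fun i x => b i x)]
    simp [(h _).b_sum]
  fact x := by
    simp only [pw, (h _).fact]
    rw [Fintype.prod_sum]
    refine Finset.sum_congr rfl (fun y _ => ?_)
    rw [← Finset.prod_mul_distrib]
    rfl
  contr g := tensor_contr n X a b (fun i y x => ρ i (x - y)) (fun i => (h i).a_nonneg)
    (fun i => (h i).b_nonneg) (fun i => (h i).contr) g

end Pi

/-- A test function: from a positive function to a `[0,1]`-valued one. -/
lemma exists_test {a b : H → ℝ} (ha : ∀ x, 0 ≤ a x) (ha1 : ∑ x, a x = 1) (hb : ∀ x, 0 ≤ b x)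
    (E : H → ℝ) (hE : ∀ x, 0 < E x) (hbE : ∀ z, op b E z ≤ 1) (K : ℕ) (L : ℝ) (hL : 0 < L)
    (hK : ∀ j < K, L * (op a)^[j] (fun x => (E x)⁻¹) 0 ≤ 1 / 2) :
    ∃ g : H → ℝ, (∀ x, 0 ≤ g x) ∧ (∀ x, g x ≤ 1) ∧ (∀ z, op b g z ≤ 1 / L) ∧
      ∀ j < K, 1 / 2 ≤ (op a)^[j] g 0 := by
  refine ⟨fun x => E x / (E x + L), fun x => ?_, fun x => ?_, fun z => ?_, fun j hj => ?_⟩
  · have := hE x; positivity
  · have := hE x
    rw [div_le_one (by positivity)]; linarith
  · have h1 : ∀ x, E x / (E x + L) ≤ (1 / L) * E x + 0 * E x := by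
      intro x
      have := hE x
      rw [zero_mul, add_zero, one_div, ← div_eq_inv_mul]
      exact div_le_div_of_nonneg_left this.le hL (by linarith)
    refine (op_mono hb h1 z).trans ?_
    rw [op_lin, zero_mul, add_zero]
    have := mul_le_mul_of_nonneg_left (hbE z) (by positivity : 0 ≤ 1 / L)
    linarith
  · have h1 : ∀ x, 1 + (-L) * (E x)⁻¹ ≤ E x / (E x + L) := by
      intro x
      have h0 := hE x
      have h2 : E x / (E x + L) = 1 - L / (E x + L) := by field_simp; ring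
      have h3 : L / (E x + L) ≤ L / E x := div_le_div_of_nonneg_left hL.le h0 (by linarith)
      rw [h2, div_eq_mul_inv L (E x)] at *
      linarith
    refine le_trans ?_ (iter_mono ha h1 j 0)
    rw [iter_affine ha1]
    have := hK j hj
    simp only
    linarith

end Pool.Agent.MP_4cde56_an

end

section

set_option autoImplicit false

namespace Pool.Agent.MP_4cde56_an

open Finset

/-- The cyclic group of order `2k+2`. -/
abbrev Cy (k : ℕ) : Type := ZMod (2 * k + 1 + 1)

instance (k : ℕ) : Fact (1 < 2 * k + 1 + 1) := ⟨by omega⟩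

noncomputable def rt (v : ℕ) : ℝ := (1 / 3) ^ v + (1 / 10) * (-1 / 2) ^ v

noncomputable def att (k : ℕ) (x : Cy k) : ℝ := 2 / 3 * rt x.val + 1 / 3 * rt (x - 1).val

noncomputable def ZZ (k : ℕ) : ℝ := ∑ x : Cy k, rt x.val

noncomputable def rho (k : ℕ) (x : Cy k) : ℝ := rt x.val / ZZ k

noncomputable def aa (k : ℕ) (x : Cy k) : ℝ := att k x / ZZ k

noncomputable def bb (k : ℕ) (x : Cy k) : ℝ :=
  (if x = 0 then 2 / 3 else 0) + (if x = 1 then 1 / 3 else 0)

lemma sum_bb (k : ℕ) (F : Cy k → ℝ) : ∑ y, bb k y * F y = 2 / 3 * F 0 + 1 / 3 * F 1 := by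
  simp [bb, add_mul, Finset.sum_add_distrib]

lemma sum_val (k : ℕ) (f : ℕ → ℝ) : ∑ x : Cy k, f x.val = ∑ v ∈ range (2 * k + 1 + 1), f v :=
  Fin.sum_univ_eq_sum_range f (2 * k + 1 + 1)

lemma sum_pred (k : ℕ) (f : Cy k → ℝ) : ∑ x : Cy k, f (x - 1) = ∑ x : Cy k, f x :=
  Equiv.sum_comp (Equiv.subRight (1 : Cy k)) f

lemma geom_le (k : ℕ) {r : ℝ} (h0 : 0 < r) (h1 : r < 1) :
    ∑ x : Cy k, r ^ (x - 1).val ≤ (1 - r)⁻¹ := by
  rw [sum_pred k (fun x => r ^ x.val), sum_val k (fun v => r ^ v)]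
  rw [← tsum_geometric_of_lt_one h0.le h1]
  exact (summable_geometric_of_lt_one h0.le h1).sum_le_tsum _ (fun i _ => by positivity)

lemma val_pred {k : ℕ} {x : Cy k} (hx : x ≠ 0) : x.val = (x - 1).val + 1 := by
  have h1 : x.val ≠ 0 := fun h => hx ((ZMod.val_eq_zero x).mp h)
  have h2 : (1 : Cy k).val = 1 := ZMod.val_one _
  rw [ZMod.val_sub (by rw [h2]; omega), h2]
  omega

lemma val_pred_zero (k : ℕ) : ((0 : Cy k) - 1).val = 2 * k + 1 := by
  rw [zero_sub]
  exact ZMod.val_neg_one (2 * k + 1)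

lemma neg_half_odd (k : ℕ) : (-1 / 2 : ℝ) ^ (2 * k + 1) = -(1 / 2) ^ (2 * k + 1) := by
  rw [neg_div, Odd.neg_pow ⟨k, rfl⟩]

lemma half_odd_le (k : ℕ) : (1 / 2 : ℝ) ^ (2 * k + 1) ≤ 1 / 2 := by
  rw [pow_succ]
  have : (1 / 2 : ℝ) ^ (2 * k) ≤ 1 := pow_le_one₀ (by norm_num) (by norm_num)
  linarith

lemma third_odd_le (k : ℕ) : (1 / 3 : ℝ) ^ (2 * k + 1) ≤ 1 / 3 := by
  rw [pow_succ]
  have : (1 / 3 : ℝ) ^ (2 * k) ≤ 1 := pow_le_one₀ (by norm_num) (by norm_num)
  linarith

lemma att_zero_bounds (k : ℕ) : 2 / 3 ≤ att k 0 ∧ att k 0 ≤ 1 := by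
  simp only [att, val_pred_zero, ZMod.val_zero, rt, neg_half_odd, pow_zero]
  have h1 := half_odd_le k
  have h2 := third_odd_le k
  have h3 : (0 : ℝ) < (1 / 2) ^ (2 * k + 1) := by positivity
  have h4 : (0 : ℝ) < (1 / 3) ^ (2 * k + 1) := by positivity
  constructor <;> linarith

lemma att_ne {k : ℕ} {x : Cy k} (hx : x ≠ 0) : att k x = 5 / 9 * (1 / 3) ^ (x - 1).val := by
  simp only [att, rt]
  rw [val_pred hx]
  ring

lemma att_nonneg (k : ℕ) (x : Cy k) : 0 ≤ att k x := by
  by_cases hx : x = 0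
  · rw [hx]; linarith [(att_zero_bounds k).1]
  · rw [att_ne hx]; positivity

lemma sum_att (k : ℕ) : ∑ x, att k x = ZZ k := by
  simp only [att, Finset.sum_add_distrib, ← Finset.mul_sum]
  rw [sum_pred k (fun x => rt x.val), ZZ]
  ring

lemma ZZ_ge (k : ℕ) : 11 / 9 ≤ ZZ k := by
  rw [← sum_att]
  have h1 : ∑ x ∈ ({0, 1} : Finset (Cy k)), att k x ≤ ∑ x, att k x :=
    Finset.sum_le_sum_of_subset_of_nonneg (Finset.subset_univ _) (fun x _ _ => att_nonneg k x)
  rw [Finset.sum_pair zero_ne_one, att_ne one_ne_zero] at h1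
  simp only [sub_self, ZMod.val_zero, pow_zero] at h1
  linarith [(att_zero_bounds k).1]

lemma ZZ_le (k : ℕ) : ZZ k ≤ 2 := by
  rw [← sum_att]
  have h1 : ∑ x, att k x ≤ ∑ x : Cy k, ((if x = 0 then 1 else 0) + 5 / 9 * (1 / 3) ^ (x - 1).val) := by
    refine Finset.sum_le_sum (fun x _ => ?_)
    by_cases hx : x = 0
    · rw [if_pos hx, hx]
      have : (0 : ℝ) ≤ 5 / 9 * (1 / 3) ^ ((0 : Cy k) - 1).val := by positivity
      linarith [(att_zero_bounds k).2]
    · rw [if_neg hx, att_ne hx, zero_add]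
  rw [Finset.sum_add_distrib, ← Finset.mul_sum] at h1
  have h2 := geom_le k (r := 1 / 3) (by norm_num) (by norm_num)
  simp only [Finset.sum_ite_eq', Finset.mem_univ, if_true] at h1
  norm_num at h2
  norm_num at h1
  linarith

lemma ZZ_pos (k : ℕ) : 0 < ZZ k := by linarith [ZZ_ge k]

lemma aa_nonneg (k : ℕ) (x : Cy k) : 0 ≤ aa k x := div_nonneg (att_nonneg k x) (ZZ_pos k).le

lemma aa_sum (k : ℕ) : ∑ x, aa k x = 1 := by
  simp only [aa]
  rw [← Finset.sum_div, sum_att, div_self (ZZ_pos k).ne']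

lemma bb_nonneg (k : ℕ) (x : Cy k) : 0 ≤ bb k x := by
  unfold bb
  split_ifs <;> norm_num

lemma bb_sum (k : ℕ) : ∑ x, bb k x = 1 := by
  have := sum_bb k (fun _ => 1)
  simp only [mul_one] at this
  rw [this]; norm_num

lemma eta_sq (k : ℕ) (x : Cy k) : (rt (x - 1).val - rt x.val) ^ 2
    ≤ ((if x = 0 then 2 else 0) + (8 / 5 * (1 / 3) ^ (x - 1).val
      + 81 / 1000 * (3 / 4) ^ (x - 1).val)) * att k x := by
  by_cases hx : x = 0
  · rw [if_pos hx, hx]
    have h0 := (att_zero_bounds k).1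
    have h5 : (0 : ℝ) ≤ 8 / 5 * (1 / 3) ^ ((0 : Cy k) - 1).val
      + 81 / 1000 * (3 / 4) ^ ((0 : Cy k) - 1).val := by positivity
    have h6 : (rt ((0 : Cy k) - 1).val - rt (0 : Cy k).val) ^ 2 ≤ 4 / 3 := by
      simp only [val_pred_zero, ZMod.val_zero, rt, neg_half_odd, pow_zero]
      have h1 := half_odd_le k
      have h2 := third_odd_le k
      have h3 : (0 : ℝ) < (1 / 2) ^ (2 * k + 1) := by positivity
      have h4 : (0 : ℝ) < (1 / 3) ^ (2 * k + 1) := by positivity
      nlinarith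
    nlinarith
  · rw [if_neg hx, att_ne hx, zero_add]
    conv_lhs => rw [val_pred hx]
    generalize (x - 1).val = v
    simp only [rt]
    have e1 : ((-1 / 2 : ℝ) ^ v) ^ 2 = (3 / 4) ^ v * (1 / 3) ^ v := by
      rw [← pow_mul, mul_comm v 2, pow_mul, ← mul_pow]; norm_num
    rw [pow_succ (1 / 3 : ℝ) v, pow_succ (-1 / 2 : ℝ) v]
    nlinarith [sq_nonneg (2 / 3 * (1 / 3 : ℝ) ^ v - 3 / 20 * (-1 / 2) ^ v)]

lemma var_bound (k : ℕ) (h : Cy k → ℝ) :
    2 / 9 * (∑ x, (rho k (x - 1) - rho k x) * h x) ^ 2 ≤ ∑ x, aa k x * h x ^ 2 := by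
  have h1 := Finset.sum_sq_le_sum_mul_sum_of_sq_le_mul (Finset.univ : Finset (Cy k))
    (r := fun x => (rt (x - 1).val - rt x.val) * h x)
    (f := fun x => (if x = 0 then 2 else 0) + (8 / 5 * (1 / 3) ^ (x - 1).val
      + 81 / 1000 * (3 / 4) ^ (x - 1).val))
    (g := fun x => att k x * h x ^ 2)
    (fun x _ => by positivity) (fun x _ => mul_nonneg (att_nonneg k x) (sq_nonneg _))
    (fun x _ => by
      rw [mul_pow, ← mul_assoc]
      exact mul_le_mul_of_nonneg_right (eta_sq k x) (sq_nonneg _))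
  have h2 : ∑ x : Cy k, ((if x = 0 then (2 : ℝ) else 0) + (8 / 5 * (1 / 3) ^ (x - 1).val
      + 81 / 1000 * (3 / 4) ^ (x - 1).val)) ≤ 9 / 2 * ZZ k := by
    simp only [Finset.sum_add_distrib, ← Finset.mul_sum, Finset.sum_ite_eq', Finset.mem_univ,
      if_true]
    have h3 := geom_le k (r := 1 / 3) (by norm_num) (by norm_num)
    have h4 := geom_le k (r := 3 / 4) (by norm_num) (by norm_num)
    have h5 := ZZ_ge k
    norm_num at h3 h4 ⊢
    linarith
  have hZ := ZZ_pos k
  have h3 : 0 ≤ ∑ x, att k x * h x ^ 2 :=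
    Finset.sum_nonneg (fun x _ => mul_nonneg (att_nonneg k x) (sq_nonneg _))
  have h4 := h1.trans (mul_le_mul_of_nonneg_right h2 h3)
  have e1 : ∑ x, (rho k (x - 1) - rho k x) * h x
      = (∑ x, (rt (x - 1).val - rt x.val) * h x) / ZZ k := by
    rw [Finset.sum_div]
    exact Finset.sum_congr rfl (fun x _ => by simp only [rho]; ring)
  have e2 : ∑ x, aa k x * h x ^ 2 = (∑ x, att k x * h x ^ 2) / ZZ k := by
    rw [Finset.sum_div]
    exact Finset.sum_congr rfl (fun x _ => by simp only [aa]; ring)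
  rw [e1, e2, div_pow, ← mul_div_assoc, div_le_div_iff₀ (by positivity) hZ]
  nlinarith

lemma aa_eq (k : ℕ) (x : Cy k) : aa k x = 2 / 3 * rho k x + 1 / 3 * rho k (x - 1) := by
  simp only [aa, att, rho]; ring

theorem lessNoisy_single (k : ℕ) : LessNoisy (aa k) (bb k) (rho k) where
  a_nonneg := aa_nonneg k
  a_sum := aa_sum k
  b_nonneg := bb_nonneg k
  b_sum := bb_sum k
  fact x := by rw [sum_bb, sub_zero, aa_eq]
  contr g := by
    rw [sum_bb]
    simp only [sub_zero]
    set m := ∑ x, aa k x * g x with hm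
    have h1 := var_bound k (fun x => g x - m)
    have e1 : ∑ x, (rho k (x - 1) - rho k x) * (g x - m)
        = ∑ x, rho k (x - 1) * g x - ∑ x, rho k x * g x := by
      simp only [mul_sub, sub_mul, Finset.sum_sub_distrib, ← Finset.sum_mul]
      rw [sum_pred k (rho k)]
      ring
    have e2 : ∑ x, aa k x * (g x - m) ^ 2 = ∑ x, aa k x * g x ^ 2 - m ^ 2 := by
      have : ∀ x, aa k x * (g x - m) ^ 2
          = aa k x * g x ^ 2 - 2 * m * (aa k x * g x) + m ^ 2 * aa k x := fun x => by ring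
      simp only [this, Finset.sum_add_distrib, Finset.sum_sub_distrib, ← Finset.mul_sum, aa_sum,
        ← hm]
      ring
    have e3 : m = 2 / 3 * ∑ x, rho k x * g x + 1 / 3 * ∑ x, rho k (x - 1) * g x := by
      rw [hm, Finset.mul_sum, Finset.mul_sum, ← Finset.sum_add_distrib]
      exact Finset.sum_congr rfl (fun x _ => by rw [aa_eq]; ring)
    rw [e1, e2, e3] at h1
    nlinarith

noncomputable def psi (k : ℕ) (x : Cy k) : ℝ := (-2) ^ x.val

noncomputable def WW (k : ℕ) (x : Cy k) : ℝ := (5 / 2) ^ x.val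

noncomputable def kap (k : ℕ) : ℝ := 2 / 3 * 2 ^ (2 * k + 1) - 1 / 3

lemma kap_nonneg (k : ℕ) : 0 ≤ kap k := by
  have : (1 : ℝ) ≤ 2 ^ (2 * k + 1) := one_le_pow₀ (by norm_num)
  unfold kap; linarith

lemma op_bb_psi (k : ℕ) (w : Cy k) : op (bb k) (psi k) w = if w = -1 then -kap k else 0 := by
  simp only [op]
  rw [sum_bb k (fun y => psi k (w + y)), add_zero]
  split_ifs with hw
  · rw [hw, neg_add_cancel]
    simp only [psi, ZMod.val_zero, pow_zero, kap]
    rw [ZMod.val_neg_one (2 * k + 1), Odd.neg_pow ⟨k, rfl⟩]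
    ring
  · have h1 : w + 1 ≠ 0 := fun h => hw (eq_neg_of_add_eq_zero_left h)
    simp only [psi]
    rw [val_pred h1, add_sub_cancel_right]
    ring

lemma op_aa_psi_eq (k : ℕ) (z : Cy k) : op (aa k) (psi k) z = -kap k * rho k (-1 - z) := by
  have h1 : op (aa k) (psi k) z = ∑ x, rho k x * op (bb k) (psi k) (z + x) := by
    simp only [op]
    simp only [sum_bb k (fun y => psi k (z + _ + y)), add_zero, aa_eq, add_mul, mul_add,
      Finset.sum_add_distrib]
    congr 1
    · exact Finset.sum_congr rfl (fun x _ => by ring)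
    · rw [← sum_pred k (fun x => rho k x * (1 / 3 * psi k (z + x + 1)))]
      refine Finset.sum_congr rfl (fun x _ => ?_)
      have : z + (x - 1) + 1 = z + x := by abel
      rw [this]; ring
  rw [h1, Finset.sum_eq_single (-1 - z)]
  · rw [op_bb_psi, if_pos (by abel)]; ring
  · intro x _ hx
    rw [op_bb_psi, if_neg, mul_zero]
    intro h
    exact hx (by rw [← h]; abel)
  · intro h; exact absurd (Finset.mem_univ _) h

noncomputable def eps (k : ℕ) : ℝ := 1 / 10 * (kap k * (1 / 2) ^ (2 * k + 1)) / ZZ k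

lemma eps_bounds (k : ℕ) : 1 / 40 ≤ eps k ∧ eps k ≤ 1 := by
  have h1 : kap k * (1 / 2) ^ (2 * k + 1) = 2 / 3 - 1 / 3 * (1 / 2) ^ (2 * k + 1) := by
    have : (2 : ℝ) ^ (2 * k + 1) * (1 / 2) ^ (2 * k + 1) = 1 := by
      rw [← mul_pow]; norm_num
    unfold kap
    rw [sub_mul, mul_assoc, this]; ring
  have h2 := half_odd_le k
  have h3 : (0 : ℝ) < (1 / 2) ^ (2 * k + 1) := by positivity
  have h4 := ZZ_ge k
  have h5 := ZZ_le k
  unfold eps
  rw [h1, le_div_iff₀ (ZZ_pos k), div_le_one (ZZ_pos k)]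
  constructor <;> linarith

lemma op_aa_psi (k : ℕ) (z : Cy k) :
    eps k * psi k z + (-(4 / 5) ^ (2 * k + 1)) * WW k z ≤ op (aa k) (psi k) z := by
  rw [op_aa_psi_eq]
  have hv : z.val ≤ 2 * k + 1 := by have := ZMod.val_lt z; omega
  have h1 : (-1 - z).val = 2 * k + 1 - z.val := by
    rw [ZMod.val_sub (by rw [ZMod.val_neg_one (2 * k + 1)]; exact hv),
      ZMod.val_neg_one (2 * k + 1)]
  obtain ⟨u, hu⟩ : ∃ u, 2 * k + 1 = u + z.val := ⟨2 * k + 1 - z.val, by omega⟩
  have h2 : (-1 - z).val = u := by omega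
  have h3 : (-1 / 2 : ℝ) ^ u = -(1 / 2) ^ (2 * k + 1) * (-2) ^ z.val := by
    rw [← neg_half_odd]
    generalize z.val = v at hu ⊢
    rw [hu, pow_add, mul_assoc, ← mul_pow]; norm_num
  have h4 : kap k * (1 / 3) ^ u ≤ (4 / 5) ^ (2 * k + 1) * (5 / 2) ^ z.val := by
    have h5 : kap k ≤ 2 ^ (2 * k + 1) := by
      have : (0 : ℝ) ≤ 2 ^ (2 * k + 1) := by positivity
      unfold kap; linarith
    have h6 : (1 / 3 : ℝ) ^ u ≤ (2 / 5) ^ u := pow_le_pow_left₀ (by norm_num) (by norm_num) u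
    have h7 : (4 / 5 : ℝ) ^ (2 * k + 1) * (5 / 2) ^ z.val = 2 ^ (2 * k + 1) * (2 / 5) ^ u := by
      generalize z.val = v at hu ⊢
      rw [hu, pow_add, pow_add, mul_assoc, ← mul_pow, mul_right_comm, ← mul_pow]; norm_num
    rw [h7]
    exact mul_le_mul h5 h6 (by positivity) (by positivity)
  have h8 : kap k * (1 / 3) ^ u / ZZ k ≤ kap k * (1 / 3) ^ u :=
    div_le_self (mul_nonneg (kap_nonneg k) (by positivity)) (by linarith [ZZ_ge k])
  simp only [rho, h2, rt, h3, eps, psi, WW]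
  have e : -kap k * (((1 / 3) ^ u + 1 / 10 * (-(1 / 2) ^ (2 * k + 1) * (-2) ^ z.val)) / ZZ k)
      = 1 / 10 * (kap k * (1 / 2) ^ (2 * k + 1)) / ZZ k * (-2) ^ z.val
        - kap k * (1 / 3) ^ u / ZZ k := by ring
  rw [e]
  linarith

lemma op_aa_WW (k : ℕ) (z : Cy k) : op (aa k) (WW k) z ≤ 10 * WW k z := by
  have h1 : op (aa k) (WW k) z ≤ ∑ x : Cy k, WW k z *
      ((if x = 0 then 1 else 0) + 25 / 18 * (5 / 6) ^ (x - 1).val) := by
    refine Finset.sum_le_sum (fun x _ => ?_)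
    have h2 : WW k (z + x) ≤ WW k z * WW k x := by
      simp only [WW]
      rw [← pow_add]
      exact pow_le_pow_right₀ (by norm_num) (ZMod.val_add_le z x)
    have h3 : aa k x ≤ att k x := div_le_self (att_nonneg k x) (by linarith [ZZ_ge k])
    have h4 : att k x * WW k x ≤ (if x = 0 then 1 else 0) + 25 / 18 * (5 / 6) ^ (x - 1).val := by
      by_cases hx : x = 0
      · rw [if_pos hx, hx]
        have : (0 : ℝ) ≤ 25 / 18 * (5 / 6) ^ ((0 : Cy k) - 1).val := by positivity
        simp only [WW, ZMod.val_zero, pow_zero, mul_one]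
        linarith [(att_zero_bounds k).2]
      · rw [if_neg hx, att_ne hx, zero_add, WW, val_pred hx]
        have : (5 / 6 : ℝ) ^ (x - 1).val = (1 / 3) ^ (x - 1).val * (5 / 2) ^ (x - 1).val := by
          rw [← mul_pow]; norm_num
        rw [this, pow_succ]
        apply le_of_eq; ring
    have h5 : 0 ≤ WW k z := by simp only [WW]; positivity
    have h6 : 0 ≤ WW k (z + x) := by simp only [WW]; positivity
    calc aa k x * WW k (z + x) ≤ att k x * (WW k z * WW k x) :=
          mul_le_mul h3 h2 h6 (att_nonneg k x)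
      _ = WW k z * (att k x * WW k x) := by ring
      _ ≤ _ := mul_le_mul_of_nonneg_left h4 h5
  rw [← Finset.mul_sum, Finset.sum_add_distrib, ← Finset.mul_sum] at h1
  have h2 := geom_le k (r := 5 / 6) (by norm_num) (by norm_num)
  simp only [Finset.sum_ite_eq', Finset.mem_univ, if_true] at h1
  have h5 : 0 ≤ WW k z := by simp only [WW]; positivity
  norm_num at h2
  nlinarith

lemma iter_aa_psi (k j : ℕ) (z : Cy k) :
    eps k ^ j * psi k z + (-((4 / 5) ^ (2 * k + 1) * 11 ^ j)) * WW k z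
      ≤ (op (aa k))^[j] (psi k) z := by
  induction j generalizing z with
  | zero =>
    have h5 : 0 ≤ (4 / 5 : ℝ) ^ (2 * k + 1) * WW k z := by simp only [WW]; positivity
    simp only [pow_zero, one_mul, mul_one, Function.iterate_zero, id_eq]
    linarith
  | succ j ih =>
    rw [Function.iterate_succ_apply']
    refine le_trans ?_ (op_mono (aa_nonneg k) ih z)
    rw [op_lin]
    have h1 := op_aa_psi k z
    have h2 := op_aa_WW k z
    have h3 := eps_bounds k
    have h4 : 0 ≤ eps k ^ j := pow_nonneg (by linarith) j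
    have h5 : eps k ^ j ≤ 11 ^ j := pow_le_pow_left₀ (by linarith) (by linarith) j
    have h6 : 0 ≤ WW k z := by simp only [WW]; positivity
    have h7 : (0 : ℝ) ≤ (4 / 5) ^ (2 * k + 1) := by positivity
    have h8 : (0 : ℝ) ≤ 11 ^ j := by positivity
    have h9 := mul_le_mul_of_nonneg_left h1 h4
    have h10 := mul_le_mul_of_nonneg_left h2 (mul_nonneg h7 h8)
    have h11 := mul_le_mul_of_nonneg_right h5 (mul_nonneg h7 h6)
    rw [pow_succ (eps k), pow_succ (11 : ℝ)]
    nlinarith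

/-- The single-letter separation. -/
theorem exists_sep (K : ℕ) : ∃ (k : ℕ) (θ κ : ℝ), κ < 1 ∧ (∀ x, 0 < 1 + θ * psi k x) ∧
    (∀ z, op (bb k) (fun x => 1 + θ * psi k x) z ≤ 1) ∧
    ∀ j < K, (op (aa k))^[j] (fun x => (1 + θ * psi k x)⁻¹) 0 ≤ κ := by
  obtain ⟨k, hk⟩ : ∃ k : ℕ, (4 / 5 : ℝ) ^ k < 1 / (2 * 440 ^ K) :=
    exists_pow_lt_of_lt_one (by positivity) (by norm_num)
  have hk' : (4 / 5 : ℝ) ^ (2 * k + 1) * 440 ^ K ≤ 1 / 2 := by
    have h1 : (4 / 5 : ℝ) ^ (2 * k + 1) ≤ (4 / 5) ^ k :=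
      pow_le_pow_of_le_one (by norm_num) (by norm_num) (by omega)
    rw [lt_div_iff₀ (by positivity)] at hk
    have h2 : (0 : ℝ) ≤ 440 ^ K := by positivity
    nlinarith
  obtain ⟨s, hs⟩ : ∃ s : ℝ, s = (1 / 40) ^ K / 2 := ⟨_, rfl⟩
  have hs0 : 0 < s := by rw [hs]; positivity
  have hs1 : s ≤ 1 := by
    have : (1 / 40 : ℝ) ^ K ≤ 1 := pow_le_one₀ (by norm_num) (by norm_num)
    rw [hs]; linarith
  have hsj : ∀ j < K, s ≤ (op (aa k))^[j] (psi k) 0 := by
    intro j hj
    refine le_trans ?_ (iter_aa_psi k j 0)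
    simp only [psi, WW, ZMod.val_zero, pow_zero, mul_one]
    have h1 : (1 / 40 : ℝ) ^ j ≤ eps k ^ j := pow_le_pow_left₀ (by norm_num) (eps_bounds k).1 j
    have h2 : (1 / 40 : ℝ) ^ K ≤ (1 / 40) ^ j :=
      pow_le_pow_of_le_one (by norm_num) (by norm_num) hj.le
    have h3 : (440 : ℝ) ^ j ≤ 440 ^ K := pow_le_pow_right₀ (by norm_num) hj.le
    have h4 : (11 : ℝ) ^ j = 440 ^ j * (1 / 40) ^ j := by rw [← mul_pow]; norm_num
    have h5 : (0 : ℝ) ≤ (4 / 5) ^ (2 * k + 1) := by positivity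
    have h6 : (0 : ℝ) ≤ (1 / 40) ^ j := by positivity
    have h7 : (4 / 5 : ℝ) ^ (2 * k + 1) * 440 ^ j ≤ 1 / 2 :=
      (mul_le_mul_of_nonneg_left h3 h5).trans hk'
    have h8 := mul_le_mul_of_nonneg_right h7 h6
    rw [h4, hs]
    nlinarith
  obtain ⟨C, hC⟩ : ∃ C : ℝ, C = 2 ^ (2 * k + 1) := ⟨_, rfl⟩
  have hC1 : 1 ≤ C := by rw [hC]; exact one_le_pow₀ (by norm_num)
  have hpsi : ∀ x, |psi k x| ≤ C := by
    intro x
    have hv : x.val ≤ 2 * k + 1 := by have := ZMod.val_lt x; omega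
    simp only [psi, abs_pow, abs_neg, abs_two]
    rw [hC]
    exact pow_le_pow_right₀ (by norm_num) hv
  obtain ⟨θ, hθ⟩ : ∃ θ : ℝ, θ = s / (4 * C ^ 2) := ⟨_, rfl⟩
  have hθ0 : 0 < θ := by rw [hθ]; positivity
  have hθC2 : θ * C ^ 2 = s / 4 := by rw [hθ]; field_simp
  have hθC : θ * C ≤ 1 / 2 := by nlinarith
  have hy : ∀ x, |θ * psi k x| ≤ θ * C := by
    intro x
    rw [abs_mul, abs_of_pos hθ0]
    exact mul_le_mul_of_nonneg_left (hpsi x) hθ0.le
  have hpos : ∀ x, 0 < 1 + θ * psi k x := by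
    intro x
    have := (abs_le.mp (hy x)).1
    linarith
  refine ⟨k, θ, 1 - θ * s / 2, by nlinarith, hpos, fun z => ?_, fun j hj => ?_⟩
  · rw [op_affine (bb_sum k), op_bb_psi]
    have := kap_nonneg k
    split_ifs
    · nlinarith
    · simp
  · have h1 : ∀ x, (1 + θ * psi k x)⁻¹ ≤ (1 + θ * s / 2) + (-θ) * psi k x := by
      intro x
      have h2 := abs_le.mp (hy x)
      have h3 : (θ * psi k x) ^ 2 ≤ (θ * C) ^ 2 := sq_le_sq' h2.1 h2.2
      have h4 : (θ * C) ^ 2 = θ * s / 4 := by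
        rw [mul_pow, sq θ, mul_assoc, hθC2]; ring
      rw [inv_le_iff_one_le_mul₀ (hpos x)]
      set y := θ * psi k x with hy'
      have h5 : -θ * psi k x = -y := by rw [hy']; ring
      rw [h5]
      have h6 : 0 ≤ θ * s := by positivity
      nlinarith
    refine (iter_mono (aa_nonneg k) h1 j 0).trans ?_
    rw [iter_affine (aa_sum k)]
    have := mul_le_mul_of_nonneg_left (hsj j hj) hθ0.le
    simp only
    linarith

end Pool.Agent.MP_4cde56_an

end

section

set_option autoImplicit false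

namespace Pool.Agent.MP_4cde56_an

open Finset
open scoped ENNReal

/-- The group algebra of a finite abelian group, with the `ℓ¹` norm. -/
def L1 (H : Type) [AddCommGroup H] [Fintype H] : Type := AddMonoidAlgebra ℂ H

namespace L1

variable {H : Type} [AddCommGroup H] [Fintype H]

noncomputable instance : CommRing (L1 H) := inferInstanceAs (CommRing (AddMonoidAlgebra ℂ H))

noncomputable instance : Algebra ℂ (L1 H) := inferInstanceAs (Algebra ℂ (AddMonoidAlgebra ℂ H))

/-- Coefficients. -/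
def co (f : L1 H) : H → ℂ := fun x => (show AddMonoidAlgebra ℂ H from f).coeff x

/-- Element with given coefficients. -/
noncomputable def mk (f : H → ℂ) : L1 H :=
  (AddMonoidAlgebra.ofCoeff (Finsupp.equivFunOnFinite.symm f) : AddMonoidAlgebra ℂ H)

@[simp] lemma co_mk (f : H → ℂ) : co (mk f) = f := rfl

lemma ext' {f g : L1 H} (h : ∀ x, co f x = co g x) : f = g :=
  AddMonoidAlgebra.ext (Finsupp.ext h)

@[simp] lemma co_zero (x : H) : co (0 : L1 H) x = 0 := rfl
@[simp] lemma co_add (f g : L1 H) (x : H) : co (f + g) x = co f x + co g x := rfl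
@[simp] lemma co_neg (f : L1 H) (x : H) : co (-f) x = -co f x := rfl
@[simp] lemma co_sub (f g : L1 H) (x : H) : co (f - g) x = co f x - co g x := rfl
@[simp] lemma co_smul (c : ℂ) (f : L1 H) (x : H) : co (c • f) x = c * co f x := rfl

lemma co_one [DecidableEq H] (x : H) : co (1 : L1 H) x = if x = 0 then 1 else 0 := by
  change (AddMonoidAlgebra.single (0 : H) (1 : ℂ)).coeff x = _
  rw [AddMonoidAlgebra.coeff_single, Finsupp.single_apply]
  simp [eq_comm]

lemma co_mul (f g : L1 H) (x : H) : co (f * g) x = ∑ y, co f y * co g (x - y) := by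
  have := AddMonoidAlgebra.coeff_mul_apply_left (show AddMonoidAlgebra ℂ H from f)
    (show AddMonoidAlgebra ℂ H from g) x
  rw [Finsupp.sum_fintype _ _ (by simp)] at this
  refine this.trans (Finset.sum_congr rfl (fun y _ => ?_))
  rw [neg_add_eq_sub]
  rfl

noncomputable def groupNorm : AddGroupNorm (L1 H) where
  toFun f := ∑ x, ‖co f x‖
  map_zero' := by simp
  add_le' f g := by
    rw [← Finset.sum_add_distrib]
    exact Finset.sum_le_sum (fun x _ => norm_add_le _ _)
  neg' f := by simp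
  eq_zero_of_map_eq_zero' f h := by
    apply ext'
    intro x
    have := (Finset.sum_eq_zero_iff_of_nonneg (fun x _ => norm_nonneg (co f x))).mp h x
      (Finset.mem_univ x)
    simpa using this

noncomputable instance : NormedAddCommGroup (L1 H) := groupNorm.toNormedAddCommGroup

lemma norm_def (f : L1 H) : ‖f‖ = ∑ x, ‖co f x‖ := rfl

noncomputable instance : NormedCommRing (L1 H) :=
  { (inferInstance : NormedAddCommGroup (L1 H)), (inferInstance : CommRing (L1 H)) with
    norm_mul_le := fun f g => by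
      simp only [norm_def, co_mul]
      calc ∑ x, ‖∑ y, co f y * co g (x - y)‖ ≤ ∑ x, ∑ y, ‖co f y‖ * ‖co g (x - y)‖ :=
            Finset.sum_le_sum (fun x _ => (norm_sum_le _ _).trans
              (le_of_eq (Finset.sum_congr rfl (fun y _ => norm_mul _ _))))
        _ = ∑ y, ‖co f y‖ * ∑ x, ‖co g x‖ := by
            rw [Finset.sum_comm]
            refine Finset.sum_congr rfl (fun y _ => ?_)
            rw [← Finset.mul_sum, ← Equiv.sum_comp (Equiv.subRight y) (fun x => ‖co g x‖)]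
            rfl
        _ = _ := by rw [Finset.sum_mul] }

noncomputable instance : NormedAlgebra ℂ (L1 H) where
  norm_smul_le c f := by
    simp only [norm_def, co_smul, norm_mul, Finset.mul_sum, le_refl]

instance : NormOneClass (L1 H) where
  norm_one := by
    classical
    rw [norm_def]
    simp only [co_one]
    rw [Finset.sum_eq_single 0] <;> simp +contextual

instance : FiniteDimensional ℂ (L1 H) :=
  inferInstanceAs (Module.Finite ℂ (AddMonoidAlgebra ℂ H))

instance : CompleteSpace (L1 H) := FiniteDimensional.complete ℂ (L1 H)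

/-- Pairing with a real function. -/
noncomputable def pr (s : L1 H) (g : H → ℝ) : ℂ := ∑ x, co s x * (g x : ℂ)

lemma pr_add (s t : L1 H) (g : H → ℝ) : pr (s + t) g = pr s g + pr t g := by
  simp [pr, add_mul, Finset.sum_add_distrib]

lemma pr_sub (s t : L1 H) (g : H → ℝ) : pr (s - t) g = pr s g - pr t g := by
  simp [pr, sub_mul, Finset.sum_sub_distrib]

lemma pr_one (g : H → ℝ) : pr 1 g = g 0 := by
  classical
  simp [pr, co_one]

lemma pr_mul (s W : L1 H) (w g : H → ℝ) (hW : ∀ x, co W x = w x) :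
    pr (s * W) g = pr s (op w g) := by
  simp only [pr, co_mul, op, hW, Finset.sum_mul]
  rw [Finset.sum_comm]
  refine Finset.sum_congr rfl (fun y _ => ?_)
  push_cast
  rw [Finset.mul_sum, ← Equiv.sum_comp (Equiv.addLeft y)]
  refine Finset.sum_congr rfl (fun x _ => ?_)
  simp only [Equiv.coe_addLeft, add_sub_cancel_left]
  ring

lemma norm_pr_le (s : L1 H) (g : H → ℝ) (c : ℝ) (h : ∀ x, |g x| ≤ c) : ‖pr s g‖ ≤ ‖s‖ * c := by
  rw [norm_def, Finset.sum_mul]
  refine (norm_sum_le _ _).trans (Finset.sum_le_sum (fun x _ => ?_))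
  rw [norm_mul, Complex.norm_real, Real.norm_eq_abs]
  exact mul_le_mul_of_nonneg_left (h x) (norm_nonneg _)

lemma corona_bound {a b : H → ℝ} (ha : ∀ x, 0 ≤ a x) (ha1 : ∑ x, a x = 1) (hb : ∀ x, 0 ≤ b x)
    (A B s t : L1 H) (hA : ∀ x, co A x = a x) (hB : ∀ x, co B x = b x)
    (h : s * (1 - A) + t * B = 1) (K : ℕ) (ε : ℝ) (g : H → ℝ) (hg0 : ∀ x, 0 ≤ g x)
    (hg1 : ∀ x, g x ≤ 1) (hbg : ∀ z, op b g z ≤ ε) (hK : ∀ j < K, 1 / 2 ≤ (op a)^[j] g 0) :
    (K : ℝ) / 2 ≤ ‖s‖ + K * (‖t‖ * ε) := by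
  have c0 : ∀ (c : ℝ) (j : ℕ) (z : H), (op a)^[j] (fun _ => c) z = c := by
    intro c j z
    have := congrFun (iter_affine ha1 c 0 (fun _ => 0) j) z
    simpa using this
  have h0 : ∀ j z, 0 ≤ (op a)^[j] g z := fun j z => by
    have := iter_mono ha (g := fun _ => 0) hg0 j z
    rwa [c0] at this
  have h1 : ∀ j z, (op a)^[j] g z ≤ 1 := fun j z => by
    have := iter_mono ha (g' := fun _ => 1) hg1 j z
    rwa [c0] at this
  have h2 : ∀ j z, |op b ((op a)^[j] g) z| ≤ ε := by
    intro j z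
    have hnn : 0 ≤ op b ((op a)^[j] g) z :=
      Finset.sum_nonneg (fun x _ => mul_nonneg (hb x) (h0 j _))
    rw [abs_of_nonneg hnn]
    have : op b ((op a)^[j] g) = (op a)^[j] (op b g) :=
      (Function.Commute.iterate_right (f := op b) (g := op a)
        (fun g => op_comm b a g) j).eq g
    rw [this]
    have h3 := iter_mono ha (g' := fun _ => ε) hbg j z
    rwa [c0] at h3
  have h3 : ∀ j, (((op a)^[j] g 0 : ℝ) : ℂ)
      = (pr s ((op a)^[j] g) - pr s ((op a)^[j + 1] g)) + pr t (op b ((op a)^[j] g)) := by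
    intro j
    rw [← pr_one, ← h, pr_add, mul_sub, mul_one, pr_sub, pr_mul s A a _ hA, pr_mul t B b _ hB,
      Function.iterate_succ_apply']
  have h4 : ((∑ j ∈ range K, (op a)^[j] g 0 : ℝ) : ℂ)
      = (pr s g - pr s ((op a)^[K] g)) + ∑ j ∈ range K, pr t (op b ((op a)^[j] g)) := by
    push_cast
    simp only [h3, Finset.sum_add_distrib]
    rw [Finset.sum_range_sub' (fun j => pr s ((op a)^[j] g))]
    rfl
  have h5 : ‖pr s g - pr s ((op a)^[K] g)‖ ≤ ‖s‖ := by
    have e : pr s g - pr s ((op a)^[K] g) = pr s (fun x => g x - (op a)^[K] g x) := by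
      simp [pr, mul_sub, Finset.sum_sub_distrib]
    rw [e]
    have := norm_pr_le s (fun x => g x - (op a)^[K] g x) 1 (fun x => by
      rw [abs_le]
      constructor <;> linarith [hg0 x, hg1 x, h0 K x, h1 K x])
    simpa using this
  have h6 : ‖∑ j ∈ range K, pr t (op b ((op a)^[j] g))‖ ≤ K * (‖t‖ * ε) := by
    refine (norm_sum_le _ _).trans ?_
    have := Finset.sum_le_card_nsmul (range K) (fun j => ‖pr t (op b ((op a)^[j] g))‖) (‖t‖ * ε)
      (fun j _ => norm_pr_le t _ ε (h2 j))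
    simpa using this
  have h7 : (K : ℝ) / 2 ≤ ∑ j ∈ range K, (op a)^[j] g 0 := by
    have := Finset.card_nsmul_le_sum (range K) (fun j => (op a)^[j] g 0) (1 / 2)
      (fun j hj => hK j (Finset.mem_range.mp hj))
    simp only [card_range, nsmul_eq_mul] at this
    linarith
  have h8 : ∑ j ∈ range K, (op a)^[j] g 0 ≤ ‖((∑ j ∈ range K, (op a)^[j] g 0 : ℝ) : ℂ)‖ := by
    rw [Complex.norm_real, Real.norm_eq_abs]; exact le_abs_self _
  rw [h4] at h8
  linarith [norm_add_le (pr s g - pr s ((op a)^[K] g))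
    (∑ j ∈ range K, pr t (op b ((op a)^[j] g)))]

end L1

open L1

theorem exists_char {H : ℕ → Type} [∀ n, AddCommGroup (H n)] [∀ n, Fintype (H n)]
    {a b : ∀ n, H n → ℝ} (ha : ∀ n x, 0 ≤ a n x) (ha1 : ∀ n, ∑ x, a n x = 1)
    (hb : ∀ n x, 0 ≤ b n x) (A B : lp (fun n => L1 (H n)) ∞)
    (hA : ∀ n x, co (A n) x = a n x) (hB : ∀ n x, co (B n) x = b n x)
    (htest : ∀ (K : ℕ) (L : ℝ), 0 < L → ∃ (n : ℕ) (g : H n → ℝ), (∀ x, 0 ≤ g x) ∧
      (∀ x, g x ≤ 1) ∧ (∀ z, op (b n) g z ≤ 1 / L) ∧ ∀ j < K, 1 / 2 ≤ (op (a n))^[j] g 0) :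
    ∃ φ : lp (fun n => L1 (H n)) ∞ →ₐ[ℂ] ℂ, φ (1 - A) = 0 ∧ φ B = 0 := by
  have hne : Ideal.span {1 - A, B} ≠ ⊤ := by
    intro htop
    have h1 : (1 : lp (fun n => L1 (H n)) ∞) ∈ Ideal.span {1 - A, B} := by
      rw [htop]; trivial
    obtain ⟨s, t, hst⟩ := Ideal.mem_span_pair.mp h1
    obtain ⟨K, hK⟩ := exists_nat_gt (4 * ‖s‖)
    obtain ⟨n, g, hg0, hg1, hbg, hj⟩ := htest K (4 * ‖t‖ + 1) (by positivity)
    have h2 : s n * (1 - A n) + t n * B n = 1 := congrArg (fun f => f n) hst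
    have h3 := corona_bound (ha n) (ha1 n) (hb n) (A n) (B n) (s n) (t n) (hA n) (hB n) h2 K _ g
      hg0 hg1 hbg hj
    have h4 : ‖s n‖ ≤ ‖s‖ := lp.norm_apply_le_norm (by simp) s n
    have h5 : ‖t n‖ ≤ ‖t‖ := lp.norm_apply_le_norm (by simp) t n
    have h6 : ‖t n‖ * (1 / (4 * ‖t‖ + 1)) ≤ 1 / 4 := by
      rw [mul_one_div, div_le_iff₀ (by positivity)]
      linarith
    have h7 := mul_le_mul_of_nonneg_left h6 (Nat.cast_nonneg (α := ℝ) K)
    linarith
  obtain ⟨M, hM, hle⟩ := Ideal.exists_le_maximal _ hne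
  refine ⟨WeakDual.CharacterSpace.equivAlgHom M.toCharacterSpace, ?_, ?_⟩
  · exact M.toCharacterSpace_apply_eq_zero_of_mem (hle (Ideal.subset_span (by simp)))
  · exact M.toCharacterSpace_apply_eq_zero_of_mem (hle (Ideal.subset_span (by simp)))

end Pool.Agent.MP_4cde56_an

end

section

set_option autoImplicit false

namespace Pool.Agent.MP_4cde56_an

open MeasureTheory Finset
open scoped ENNReal symmDiff

section General

variable {G : Type} [MeasurableSpace G]

lemma variation_le_re_im (μ : ComplexMeasure G) :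
    μ.variation ≤ (ComplexMeasure.re μ).totalVariation + (ComplexMeasure.im μ).totalVariation := by
  apply VectorMeasure.variation_le_of_forall_enorm_le
  intro E _
  rw [Measure.add_apply]
  refine le_trans ?_ (add_le_add (SignedMeasure.enorm_le_totalVariation _ E)
    (SignedMeasure.enorm_le_totalVariation _ E))
  rw [← ofReal_norm, ← ofReal_norm, ← ofReal_norm,
    ← ENNReal.ofReal_add (norm_nonneg _) (norm_nonneg _)]
  exact ENNReal.ofReal_le_ofReal (Complex.norm_le_abs_re_add_abs_im (μ E))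

instance finite_variation (μ : ComplexMeasure G) : IsFiniteMeasure μ.variation :=
  isFiniteMeasure_of_le _ (variation_le_re_im μ)

lemma signed_variation_le (s : SignedMeasure G) (R : ℝ)
    (h : ∀ U, MeasurableSet U → ‖s U‖ ≤ R) :
    s.totalVariation Set.univ ≤ 2 * ENNReal.ofReal R := by
  rw [SignedMeasure.totalVariation_eq_variation]
  by_contra hlt
  obtain ⟨t, _, ht, hlt'⟩ := s.exists_subset_lt_enorm_apply_of_lt_variation MeasurableSet.univ
    (not_le.mp hlt)
  have : ‖s t‖ₑ ≤ ENNReal.ofReal R := by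
    rw [← ofReal_norm]
    exact ENNReal.ofReal_le_ofReal (h t ht)
  exact absurd hlt' (not_lt.mpr (by gcongr))

lemma variation_le_of_bound (μ : ComplexMeasure G) (R : ℝ)
    (h : ∀ U, MeasurableSet U → ‖μ U‖ ≤ R) :
    μ.variation Set.univ ≤ 4 * ENNReal.ofReal R := by
  refine (variation_le_re_im μ Set.univ).trans ?_
  rw [Measure.add_apply]
  have h1 := signed_variation_le (ComplexMeasure.re μ) R
    (fun U hU => (Complex.abs_re_le_norm (μ U)).trans (h U hU))
  have h2 := signed_variation_le (ComplexMeasure.im μ) R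
    (fun U hU => (Complex.abs_im_le_norm (μ U)).trans (h U hU))
  refine (add_le_add h1 h2).trans (le_of_eq ?_)
  ring

lemma norm_sub_le_symmDiff (μ : ComplexMeasure G) {U V : Set G} (hU : MeasurableSet U)
    (hV : MeasurableSet V) : ‖μ U‖ ≤ ‖μ V‖ + 2 * μ.variation.real (V ∆ U) := by
  have h1 : μ (U ∩ V) + μ (U \ V) = μ U := by
    rw [← μ.of_union (Set.disjoint_sdiff_right.mono_left Set.inter_subset_right) (hU.inter hV)
      (hU.diff hV), Set.inter_union_sdiff]
  have h2 : μ (U ∩ V) + μ (V \ U) = μ V := by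
    rw [← μ.of_union (Set.disjoint_sdiff_right.mono_left Set.inter_subset_left) (hU.inter hV)
      (hV.diff hU), Set.inter_comm, Set.inter_union_sdiff]
  have h3 : ‖μ (U \ V)‖ ≤ μ.variation.real (V ∆ U) :=
    le_trans VectorMeasure.norm_measure_le_variation
      (measureReal_mono Set.subset_union_right)
  have h4 : ‖μ (V \ U)‖ ≤ μ.variation.real (V ∆ U) :=
    le_trans VectorMeasure.norm_measure_le_variation
      (measureReal_mono Set.subset_union_left)
  have h5 : μ U = μ V + μ (U \ V) - μ (V \ U) := by rw [← h1, ← h2]; ring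
  rw [h5]
  have := norm_sub_le (μ V + μ (U \ V)) (μ (V \ U))
  have := norm_add_le (μ V) (μ (U \ V))
  linarith

variable {H : Type} [Fintype H]

lemma sum_norm_marg_le (μ : ComplexMeasure G) (π : G → H)
    (hπ : ∀ z, MeasurableSet (π ⁻¹' {z})) :
    ∑ z, ‖μ (π ⁻¹' {z})‖ ≤ μ.variation.real Set.univ := by
  have h1 : ∑ z, ‖μ (π ⁻¹' {z})‖ ≤ ∑ z, μ.variation.real (π ⁻¹' {z}) :=
    Finset.sum_le_sum (fun z _ => VectorMeasure.norm_measure_le_variation)
  rw [sum_measureReal_preimage_singleton _ (fun z _ => hπ z)] at h1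
  exact h1.trans (measureReal_mono (Set.subset_univ _))

lemma norm_preimage_le (μ : ComplexMeasure G) (π : G → H)
    (hπ : ∀ z, MeasurableSet (π ⁻¹' {z})) (F : Set H) :
    ‖μ (π ⁻¹' F)‖ ≤ ∑ z, ‖μ (π ⁻¹' {z})‖ := by
  classical
  have h1 : π ⁻¹' F = ⋃ z ∈ Finset.univ.filter (fun z => z ∈ F), π ⁻¹' {z} := by
    ext x; simp
  rw [h1, μ.of_biUnion_finset]
  · exact (norm_sum_le _ _).trans (Finset.sum_le_sum_of_subset_of_nonneg (Finset.subset_univ _)
      (fun _ _ _ => norm_nonneg _))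
  · intro a _ b _ hab
    exact Disjoint.preimage π (Set.disjoint_singleton.mpr hab)
  · exact fun z _ => hπ z

lemma conv_marg [AddCommGroup G] [MeasurableAdd₂ G] [AddCommGroup H] (μ ν : ComplexMeasure G)
    (π : G →+ H) (hπ : ∀ z, MeasurableSet (π ⁻¹' {z})) (z : H) :
    conv μ ν (π ⁻¹' {z}) = ∑ y, μ (π ⁻¹' {y}) * ν (π ⁻¹' {z - y}) := by
  unfold conv
  rw [VectorMeasure.map_apply _ measurable_add (hπ z)]
  have h1 : (fun p : G × G => p.1 + p.2) ⁻¹' (π ⁻¹' {z})
      = ⋃ y ∈ (Finset.univ : Finset H), (π ⁻¹' {y}) ×ˢ (π ⁻¹' {z - y}) := by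
    ext p
    simp only [Set.mem_preimage, map_add, Set.mem_singleton_iff, Finset.mem_univ,
      Set.iUnion_true, Set.mem_iUnion, Set.mem_prod, exists_eq_left']
    exact eq_sub_iff_add_eq'.symm
  rw [h1, VectorMeasure.of_biUnion_finset]
  · simp
  · intro a _ b _ hab
    exact Set.disjoint_prod.mpr (Or.inl (Disjoint.preimage π (Set.disjoint_singleton.mpr hab)))
  · exact fun y _ => (hπ y).prod (hπ _)

lemma l1_complex [AddCommGroup H] {a b ρ : H → ℝ} (h : LessNoisy a b ρ) (f : H → ℂ) :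
    ∑ x, ‖f x‖ ≤ 4 * (∑ x, ‖f x - ∑ y, (a y : ℂ) * f (x - y)‖
      + ∑ x, ‖∑ y, (b y : ℂ) * f (x - y)‖) := by
  have h1 := h.l1 (fun x => (f x).re)
  have h2 := h.l1 (fun x => (f x).im)
  have h3 : ∑ x, ‖f x‖ ≤ ∑ x, |(f x).re| + ∑ x, |(f x).im| := by
    rw [← Finset.sum_add_distrib]
    exact Finset.sum_le_sum (fun x _ => Complex.norm_le_abs_re_add_abs_im _)
  have e1 : ∀ (w : H → ℝ) x, cv w (fun x => (f x).re) x = (∑ y, (w y : ℂ) * f (x - y)).re := by
    intro w x; simp [cv]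
  have e2 : ∀ (w : H → ℝ) x, cv w (fun x => (f x).im) x = (∑ y, (w y : ℂ) * f (x - y)).im := by
    intro w x; simp [cv]
  simp only [e1, ← Complex.sub_re] at h1
  simp only [e2, ← Complex.sub_im] at h2
  have h4 : ∑ x, |(f x - ∑ y, (a y : ℂ) * f (x - y)).re|
      ≤ ∑ x, ‖f x - ∑ y, (a y : ℂ) * f (x - y)‖ :=
    Finset.sum_le_sum (fun x _ => Complex.abs_re_le_norm _)
  have h5 : ∑ x, |(f x - ∑ y, (a y : ℂ) * f (x - y)).im|
      ≤ ∑ x, ‖f x - ∑ y, (a y : ℂ) * f (x - y)‖ :=
    Finset.sum_le_sum (fun x _ => Complex.abs_im_le_norm _)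
  have h6 : ∑ x, |(∑ y, (b y : ℂ) * f (x - y)).re| ≤ ∑ x, ‖∑ y, (b y : ℂ) * f (x - y)‖ :=
    Finset.sum_le_sum (fun x _ => Complex.abs_re_le_norm _)
  have h7 : ∑ x, |(∑ y, (b y : ℂ) * f (x - y)).im| ≤ ∑ x, ‖∑ y, (b y : ℂ) * f (x - y)‖ :=
    Finset.sum_le_sum (fun x _ => Complex.abs_im_le_norm _)
  have h8 : 0 ≤ ∑ x, ‖∑ y, (b y : ℂ) * f (x - y)‖ := Finset.sum_nonneg (fun _ _ => norm_nonneg _)
  linarith

/-- The measure on a finite set with given weights. -/
noncomputable def wm [MeasurableSpace H] (w : H → ℝ) : Measure H :=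
  ∑ x, ENNReal.ofReal (w x) • Measure.dirac x

lemma wm_singleton [MeasurableSpace H] [MeasurableSingletonClass H] (w : H → ℝ) (y : H) :
    wm w {y} = ENNReal.ofReal (w y) := by
  classical
  simp only [wm, Measure.coe_finsetSum, Finset.sum_apply, Measure.smul_apply, smul_eq_mul,
    Measure.dirac_apply, Set.indicator_apply, Set.mem_singleton_iff, Pi.one_apply, mul_ite,
    mul_one, mul_zero, Finset.sum_ite_eq', Finset.mem_univ, if_true]

lemma wm_prob [MeasurableSpace H] {w : H → ℝ} (h0 : ∀ x, 0 ≤ w x) (h1 : ∑ x, w x = 1) :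
    IsProbabilityMeasure (wm w) := by
  constructor
  simp only [wm, Measure.coe_finsetSum, Finset.sum_apply, Measure.smul_apply, smul_eq_mul,
    measure_univ, mul_one]
  rw [← ENNReal.ofReal_sum_of_nonneg (fun x _ => h0 x), h1, ENNReal.ofReal_one]

end General

section Product

variable {X : ℕ → Type} [∀ k, AddCommGroup (X k)] [∀ k, Fintype (X k)]
  [∀ k, MeasurableSpace (X k)] [∀ k, MeasurableSingletonClass (X k)]

/-- Projection to the first `n` coordinates. -/
def proj (X : ℕ → Type) [∀ k, AddCommGroup (X k)] (n : ℕ) :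
    (∀ k, X k) →+ (∀ i : Fin n, X i) where
  toFun x := fun i => x i
  map_zero' := rfl
  map_add' _ _ := rfl

omit [∀ k, Fintype (X k)] in
lemma measurableSet_cyl (n : ℕ) (z : ∀ i : Fin n, X i) : MeasurableSet (proj X n ⁻¹' {z}) := by
  have : Measurable (proj X n) := measurable_pi_lambda _ (fun i => measurable_pi_apply _)
  exact this (measurableSet_singleton z)

lemma norm_le_of_marg (μ : ComplexMeasure (∀ k, X k)) (R : ℝ)
    (h : ∀ n, ∑ z, ‖μ (proj X n ⁻¹' {z})‖ ≤ R) (U : Set (∀ k, X k)) (hU : MeasurableSet U) :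
    ‖μ U‖ ≤ R := by
  apply le_of_forall_pos_le_add
  intro ε hε
  obtain ⟨V, hV, hlt⟩ := exists_measure_symmDiff_lt_of_generateFrom_isSetRing (μ := μ.variation)
    isSetRing_measurableCylinders
    ⟨{Set.univ}, Set.countable_singleton _, by simpa using univ_mem_measurableCylinders X,
      by simp⟩
    generateFrom_measurableCylinders.symm hU (ε := ENNReal.ofReal (ε / 2)) (by simpa using hε)
  have hVm : MeasurableSet V := MeasurableSet.of_mem_measurableCylinders hV
  obtain ⟨s, S, _, rfl⟩ := (mem_measurableCylinders V).mp hV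
  obtain ⟨n, hn⟩ := Finset.exists_nat_subset_range s
  have h1 : cylinder s S = proj X n ⁻¹'
      {z | (fun i : s => z ⟨i.1, Finset.mem_range.mp (hn i.2)⟩) ∈ S} := rfl
  have h2 : ‖μ (cylinder s S)‖ ≤ R := by
    rw [h1]
    exact (norm_preimage_le μ _ (measurableSet_cyl n) _).trans (h n)
  have h3 := norm_sub_le_symmDiff μ hU hVm
  have h4 : μ.variation.real (cylinder s S ∆ U) ≤ ε / 2 :=
    ENNReal.toReal_le_of_le_ofReal (by positivity) hlt.le
  linarith

/-- The infinite product of weights, as a complex measure. -/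
noncomputable def prodMeas (w : ∀ k, X k → ℝ) (h0 : ∀ k x, 0 ≤ w k x)
    (h1 : ∀ k, ∑ x, w k x = 1) : ComplexMeasure (∀ k, X k) :=
  haveI := fun k => wm_prob (h0 k) (h1 k)
  (Measure.infinitePi (fun k => wm (w k))).toSignedMeasure.toComplexMeasure 0

lemma prodMeas_marg (w : ∀ k, X k → ℝ) (h0 : ∀ k x, 0 ≤ w k x) (h1 : ∀ k, ∑ x, w k x = 1)
    (n : ℕ) (z : ∀ i : Fin n, X i) :
    prodMeas w h0 h1 (proj X n ⁻¹' {z}) = ((pw (fun i : Fin n => w i) z : ℝ) : ℂ) := by
  have := fun k => wm_prob (h0 k) (h1 k)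
  have hnn : 0 ≤ pw (fun i : Fin n => w i) z := Finset.prod_nonneg (fun i _ => h0 _ _)
  have e : proj X n ⁻¹' {z} = Set.pi (Finset.range n : Set ℕ)
      (fun k => if h : k < n then {z ⟨k, h⟩} else Set.univ) := by
    ext x
    simp only [Set.mem_preimage, Set.mem_singleton_iff, coe_range, Set.mem_pi, Set.mem_Iio]
    constructor
    · rintro rfl k hk
      rw [dif_pos hk]
      rfl
    · intro h
      funext i
      have := h i i.2
      rwa [dif_pos i.2] at this
  have h2 : Measure.infinitePi (fun k => wm (w k)) (proj X n ⁻¹' {z})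
      = ENNReal.ofReal (pw (fun i : Fin n => w i) z) := by
    rw [e, Measure.infinitePi_pi, ← Fin.prod_univ_eq_prod_range
      (fun k => wm (w k) (if h : k < n then {z ⟨k, h⟩} else Set.univ)) n, pw,
      ENNReal.ofReal_prod_of_nonneg (fun i _ => h0 _ _)]
    · refine Finset.prod_congr rfl (fun i _ => ?_)
      rw [dif_pos i.2, wm_singleton]
    · intro k _
      split_ifs
      · exact measurableSet_singleton _
      · exact MeasurableSet.univ
  unfold prodMeas
  rw [SignedMeasure.toComplexMeasure_apply,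
    Measure.toSignedMeasure_apply_measurable (measurableSet_cyl n z), measureReal_def, h2,
    ENNReal.toReal_ofReal hnn]
  rfl

end Product

end Pool.Agent.MP_4cde56_an

end

section

set_option autoImplicit false

namespace Pool.Agent.MP_4cde56_an

open MeasureTheory Finset L1
open scoped ENNReal

/-- The coordinate groups: every even order occurs infinitely often. -/
abbrev XX (k : ℕ) : Type := Cy (Nat.unpair k).1

/-- The compact group. -/
abbrev GG : Type := ∀ k, XX k

/-- The finite quotients. -/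
abbrev HH (n : ℕ) : Type := ∀ i : Fin n, XX i

noncomputable def Phi : ComplexMeasure GG →ₗ[ℂ] lp (fun n => L1 (HH n)) ∞ where
  toFun μ := ⟨fun n => L1.mk (fun z => μ (proj XX n ⁻¹' {z})), memℓp_infty
    ⟨μ.variation.real Set.univ, by
      rintro _ ⟨n, rfl⟩
      exact sum_norm_marg_le μ _ (measurableSet_cyl n)⟩⟩
  map_add' μ ν := by
    apply lp.ext
    funext n
    apply L1.ext'
    intro z
    rfl
  map_smul' c μ := by
    apply lp.ext
    funext n
    apply L1.ext'
    intro z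
    rfl

lemma co_Phi (μ : ComplexMeasure GG) (n : ℕ) (z : HH n) :
    co (Phi μ n) z = μ (proj XX n ⁻¹' {z}) := rfl

lemma Phi_conv (μ ν : ComplexMeasure GG) : Phi (conv μ ν) = Phi μ * Phi ν := by
  apply lp.ext
  funext n
  apply L1.ext'
  intro z
  rw [lp.infty_coeFn_mul, Pi.mul_apply, co_mul, co_Phi,
    conv_marg μ ν (proj XX n) (measurableSet_cyl n)]
  rfl

lemma dirac_marg (n : ℕ) (z : HH n) :
    (VectorMeasure.dirac (0 : GG) (1 : ℂ)) (proj XX n ⁻¹' {z}) = if z = 0 then 1 else 0 := by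
  split_ifs with h
  · exact VectorMeasure.dirac_apply_of_mem (measurableSet_cyl n z) (by simp [h])
  · exact VectorMeasure.dirac_apply_of_notMem (by simpa using fun h' => h h'.symm)

lemma Phi_dirac : Phi (VectorMeasure.dirac (0 : GG) (1 : ℂ)) = 1 := by
  apply lp.ext
  funext n
  apply L1.ext'
  intro z
  rw [co_Phi, dirac_marg, lp.infty_coeFn_one, Pi.one_apply, co_one]

noncomputable def mA : ComplexMeasure GG :=
  prodMeas (fun k => aa (Nat.unpair k).1) (fun _ => aa_nonneg _) (fun _ => aa_sum _)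

noncomputable def mB : ComplexMeasure GG :=
  prodMeas (fun k => bb (Nat.unpair k).1) (fun _ => bb_nonneg _) (fun _ => bb_sum _)

noncomputable def wA (n : ℕ) : HH n → ℝ := pw (fun i : Fin n => aa (Nat.unpair i).1)

noncomputable def wB (n : ℕ) : HH n → ℝ := pw (fun i : Fin n => bb (Nat.unpair i).1)

lemma lessNoisy_n (n : ℕ) :
    LessNoisy (wA n) (wB n) (pw (fun i : Fin n => rho (Nat.unpair i).1)) :=
  LessNoisy.pi (fun _ => lessNoisy_single _)

lemma test_exists (K : ℕ) (L : ℝ) (hL : 0 < L) : ∃ (n : ℕ) (g : HH n → ℝ), (∀ x, 0 ≤ g x) ∧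
    (∀ x, g x ≤ 1) ∧ (∀ z, op (wB n) g z ≤ 1 / L) ∧ ∀ j < K, 1 / 2 ≤ (op (wA n))^[j] g 0 := by
  classical
  obtain ⟨k₀, θ, κ, hκ, hpos, hb, hj⟩ := exists_sep K
  obtain ⟨M, hM⟩ : ∃ M : ℕ, (max κ 0) ^ M < 1 / (2 * L) :=
    exists_pow_lt_of_lt_one (by positivity) (max_lt hκ one_pos)
  set n := Nat.pair k₀ M with hn
  set e : ∀ k : ℕ, Cy k → ℝ := fun k x => if k = k₀ then 1 + θ * psi k x else 1 with he
  have he0 : ∀ k x, 0 < e k x := by
    intro k x
    simp only [he]
    split_ifs with h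
    · subst h; exact hpos x
    · exact one_pos
  have he1 : ∀ k z, op (bb k) (e k) z ≤ 1 := by
    intro k z
    by_cases h : k = k₀
    · subst h
      simpa [he] using hb z
    · simp [he, h, op, bb_sum]
  have he2 : ∀ k, ∀ j < K, (op (aa k))^[j] (fun x => (e k x)⁻¹) 0
      ≤ if k = k₀ then max κ 0 else 1 := by
    intro k j hjK
    by_cases h : k = k₀
    · subst h
      rw [if_pos rfl]
      refine le_trans ?_ (le_max_left _ _)
      simpa [he] using hj j hjK
    · rw [if_neg h]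
      have := congrFun (iter_affine (aa_sum k) 1 0 (fun _ => 0) j) 0
      simp only [mul_zero, add_zero, zero_mul] at this
      simp [he, h, this]
  have he3 : ∀ k j, 0 ≤ (op (aa k))^[j] (fun x => (e k x)⁻¹) 0 := by
    intro k j
    have h1 := iter_mono (aa_nonneg k) (g := fun _ => 0) (g' := fun x => (e k x)⁻¹)
      (fun x => (inv_pos.mpr (he0 k x)).le) j 0
    have := congrFun (iter_affine (aa_sum k) 0 0 (fun _ => 0) j) 0
    simp only [mul_zero, add_zero, zero_mul] at this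
    rwa [this] at h1
  have hLN := lessNoisy_n n
  refine ⟨n, exists_test hLN.a_nonneg hLN.a_sum hLN.b_nonneg
    (pw (fun i : Fin n => e (Nat.unpair i).1)) (fun x => Finset.prod_pos (fun i _ => he0 _ _))
    (fun z => ?_) K L hL (fun j hjK => ?_)⟩
  · rw [wB, op_pw]
    exact Finset.prod_le_one (fun i _ => Finset.sum_nonneg
      (fun x _ => mul_nonneg (bb_nonneg _ _) (he0 _ _).le)) (fun i _ => he1 _ _)
  · have h1 : (fun x => (pw (fun i : Fin n => e (Nat.unpair i).1) x)⁻¹)
        = pw (fun i : Fin n => fun x => (e (Nat.unpair i).1 x)⁻¹) := by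
      funext x
      simp only [pw, Finset.prod_inv_distrib]
    rw [h1, wA, iter_pw]
    have h2 : pw (fun i : Fin n => (op (aa (Nat.unpair i).1))^[j]
        (fun x => (e (Nat.unpair i).1 x)⁻¹)) 0
        ≤ ∏ i : Fin n, (if (Nat.unpair i).1 = k₀ then max κ 0 else 1) :=
      Finset.prod_le_prod (fun i _ => he3 _ j) (fun i _ => he2 _ j hjK)
    rw [Fin.prod_univ_eq_prod_range (fun i => if (Nat.unpair i).1 = k₀ then max κ 0 else 1) n,
      Finset.prod_ite, Finset.prod_const, Finset.prod_const_one, mul_one] at h2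
    have h3 : M ≤ ((range n).filter (fun i => (Nat.unpair i).1 = k₀)).card := by
      have : (range M).card ≤ ((range n).filter (fun i => (Nat.unpair i).1 = k₀)).card := by
        apply Finset.card_le_card_of_injOn (fun i => Nat.pair k₀ i)
        · intro i hi
          simp only [coe_range, Set.mem_Iio] at hi
          simp only [coe_filter, mem_range, Set.mem_ofPred_eq, Nat.unpair_pair, and_true]
          exact Nat.pair_lt_pair_right k₀ hi
        · intro i _ i' _ h
          exact (Nat.pair_eq_pair.mp h).2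
      simpa using this
    have h4 := pow_le_pow_of_le_one (le_max_right κ 0) (max_lt hκ one_pos).le h3
    have h5 := h2.trans (h4.trans hM.le)
    rw [le_div_iff₀ (by positivity)] at h5
    linarith

theorem exists_character : ∃ φ : ComplexMeasure GG →ₗ[ℂ] ℂ, φ ≠ 0 ∧
    (∀ μ ν, φ (conv μ ν) = φ μ * φ ν) ∧
    φ (VectorMeasure.dirac (0 : GG) (1 : ℂ) - mA) = 0 ∧ φ mB = 0 := by
  obtain ⟨ψ, h1, h2⟩ := exists_char (H := HH) (a := wA) (b := wB)
    (fun n => (lessNoisy_n n).a_nonneg) (fun n => (lessNoisy_n n).a_sum)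
    (fun n => (lessNoisy_n n).b_nonneg) (Phi mA) (Phi mB)
    (fun n z => prodMeas_marg (fun k => aa (Nat.unpair k).1) (fun _ => aa_nonneg _)
      (fun _ => aa_sum _) n z)
    (fun n z => prodMeas_marg (fun k => bb (Nat.unpair k).1) (fun _ => bb_nonneg _)
      (fun _ => bb_sum _) n z) test_exists
  refine ⟨ψ.toLinearMap ∘ₗ Phi, fun h => ?_, fun μ ν => ?_, ?_, h2⟩
  · have := LinearMap.congr_fun h (VectorMeasure.dirac (0 : GG) (1 : ℂ))
    simp [Phi_dirac] at this
  · simp [Phi_conv]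
  · simpa [Phi_dirac] using h1

theorem lower_bound (ν : ComplexMeasure GG) :
    ν.variation Set.univ ≤ 16 * ((conv (VectorMeasure.dirac (0 : GG) (1 : ℂ) - mA) ν).variation
      Set.univ + (conv mB ν).variation Set.univ) := by
  classical
  set μ₁ := conv (VectorMeasure.dirac (0 : GG) (1 : ℂ) - mA) ν with hμ₁
  set μ₂ := conv mB ν with hμ₂
  have h1 : ∀ n, ∑ z, ‖ν (proj XX n ⁻¹' {z})‖
      ≤ 4 * (μ₁.variation.real Set.univ + μ₂.variation.real Set.univ) := by
    intro n
    refine (l1_complex (lessNoisy_n n) (fun z => ν (proj XX n ⁻¹' {z}))).trans ?_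
    have e1 : ∀ z, μ₁ (proj XX n ⁻¹' {z}) = ν (proj XX n ⁻¹' {z})
        - ∑ y, (wA n y : ℂ) * ν (proj XX n ⁻¹' {z - y}) := by
      intro z
      rw [hμ₁, conv_marg _ ν (proj XX n) (measurableSet_cyl n)]
      simp only [_root_.sub_apply, dirac_marg, sub_mul, Finset.sum_sub_distrib, ite_mul,
        one_mul, zero_mul, Finset.sum_ite_eq', Finset.mem_univ, if_true, sub_zero]
      congr 1
      exact Finset.sum_congr rfl (fun y _ => by rw [mA, prodMeas_marg]; rfl)
    have e2 : ∀ z, μ₂ (proj XX n ⁻¹' {z})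
        = ∑ y, (wB n y : ℂ) * ν (proj XX n ⁻¹' {z - y}) := by
      intro z
      rw [hμ₂, conv_marg _ ν (proj XX n) (measurableSet_cyl n)]
      exact Finset.sum_congr rfl (fun y _ => by rw [mB, prodMeas_marg]; rfl)
    have h2 := sum_norm_marg_le μ₁ _ (measurableSet_cyl (X := XX) n)
    have h3 := sum_norm_marg_le μ₂ _ (measurableSet_cyl (X := XX) n)
    simp only [e1] at h2
    simp only [e2] at h3
    linarith
  refine (variation_le_of_bound ν _ (norm_le_of_marg ν _ h1)).trans (le_of_eq ?_)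
  rw [ENNReal.ofReal_mul (by norm_num), ENNReal.ofReal_add measureReal_nonneg measureReal_nonneg,
    ofReal_measureReal, ofReal_measureReal, ENNReal.ofReal_ofNat, ← mul_assoc]
  norm_num

theorem counterexample : ∃ φ : ComplexMeasure GG →ₗ[ℂ] ℂ, φ ≠ 0 ∧
    (∀ μ ν, φ (conv μ ν) = φ μ * φ ν) ∧
    ∃ (n : ℕ) (μ : Fin n → ComplexMeasure GG), (∀ j, φ (μ j) = 0) ∧
      ∃ c : ℝ≥0∞, 0 < c ∧ ∀ ν : ComplexMeasure GG, ν.variation Set.univ = 1 →
        c ≤ ∑ j, (conv (μ j) ν).variation Set.univ := by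
  obtain ⟨φ, h0, hmul, h1, h2⟩ := exists_character
  refine ⟨φ, h0, hmul, 2, ![VectorMeasure.dirac (0 : GG) (1 : ℂ) - mA, mB], ?_, 16⁻¹, by simp,
    fun ν hν => ?_⟩
  · intro j
    fin_cases j
    · exact h1
    · exact h2
  · have := lower_bound ν
    rw [hν] at this
    rw [Fin.sum_univ_two]
    simp only [Matrix.cons_val_zero, Matrix.cons_val_one]
    rw [ENNReal.inv_le_iff_le_mul (by simp) (by simp)]
    exact this

end Pool.Agent.MP_4cde56_an

end
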